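import Pool.Agent.P8H15.FG.Stm2

/-!
# Project FG, third part: all scales

With the pair formula of the starting file `MP_e6fa8b_nt.EveryModulusShifts` (`EveryPair`, the modulus `1`) instead of
the most-scales theorem: for ALL large `N`, for all but `N / log^V N` of the moduli `N / log^A N ≤ k ≤ N`, the formulas
hold for all `k ≤ X ≤ N`.
-/

set_option autoImplicit false
set_option linter.all false

namespace Pool.Agent.P8H15.FG

open Finset ArithmeticFunction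
open Pool.Agent.H560R3.GB (sing C₂)

/-- The pair formula at the length `N` for the difference `h` (both primes up to `N`). -/
def PairN (E N h : ℕ) : Prop :=
  |∑ n ∈ Icc 1 (N - h), vonMangoldt n * vonMangoldt (n + h) - sg h * ((N : ℝ) - h)| ≤ N / Real.log N ^ E

/-- (PALL, 150 lines) From `Pool.Agent.Y883.GJ.pairs_every Pool.Agent.Y883.GJ.coreC_all Pool.Agent.Y883.GJ.model_all`
(`Y883/GJ/Pairs2.lean`, `AsmC.lean`, `Asm.lean`) with `q = 1`, `ρ = 1/4`, `T = 0`, `a = 0`: copy the conversions (`nu_symm`,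
`sing_symm`, `pair_sum`, `PairAsymptotic`) from the starting file `Results/MP_e6fa8b_nt/EveryModulusShifts.lean`. The limit of
`sing (fun _ : Fin 1 => h) z` (`z → ∞`) is `sg h`: factor by factor it is `bet ![0, h] p` of `Pool.Agent.P8H52.GQ.bet_pair`
(see `sge` in `P8H15/FG/Tup.lean` and `prod_eq`, `cp_tendsto` in `P8H52/GQ/Sng.lean`). -/
def S_PALL : Prop := ∀ E : ℕ, ∃ N₀ : ℕ, ∀ N : ℕ, N₀ ≤ N →
  num (Icc 1 N) (fun h => ¬ PairN E N h) ≤ N / Real.log N ^ E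

/-- (SGB, 30 lines; from `S_EUL`, `S_TOT`) Proof: for even `h` the term `d = 1` in `S_EUL` gives `sing h ≤ h / φ(h)` (`hh 1 = 1`,
the other terms are `≥ 0`). -/
def S_SGB : Prop := ∃ C : ℝ, 0 < C ∧ ∀ h N : ℕ, 16 ≤ N → 1 ≤ h → h ≤ N →
  0 ≤ sg h ∧ sg h ≤ C * Real.log (Real.log N)

/-- (GRID, 200 lines; `S_PALL → S_SGB → S_GRID`) Proof: let `M = ⌈log^(E+3) N⌉` and `X_i = ⌊N i / M⌋`, `0 ≤ i ≤ M` (spacing
`≤ N/M + 1`). Use `S_PALL` (with a large exponent `E'`, e.g. `2E + 2V + 2A + 20`) at the scales `X_i ≥ N / log^A N` only. The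
modulus `k ≥ N / log^A N` is bad if `j k` is an exceptional difference for some such `X_i` and some `j ≤ log^A N`: at most
`(M+1) log^A N · N 2^(E') / log^(E') N ≤ N / log^V N` bad `k`. For the others, with `h = j k ≤ X`, `P(X) = ∑_{n ≤ X-h} Λ(n) Λ(n+h)` is
nondecreasing in `X`: compare it with `P(X_i) ≤ P(X) ≤ P(X_{i+1})`, `X_i ≤ X ≤ X_{i+1}` (if `X_i < h` then `0 ≤ P(X)` and
`X - h ≤ X_{i+1} - X_i`), `0 ≤ sg h ≤ C log log N`. -/
def S_GRID : Prop := ∀ A V E : ℕ, ∃ N₀ : ℕ, ∀ N : ℕ, N₀ ≤ N →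
  num (Icc 1 N) (fun k => (N : ℝ) ≤ k * Real.log N ^ A ∧ ¬ ∀ X : ℕ, k ≤ X → X ≤ N → ∀ j : ℕ, 1 ≤ j → j * k ≤ X →
    |∑ n ∈ Icc 1 (X - j * k), vonMangoldt n * vonMangoldt (n + j * k) - sg (j * k) * ((X : ℝ) - j * k)| ≤
      N / Real.log N ^ E) ≤ N / Real.log N ^ V

end Pool.Agent.P8H15.FG
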