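import Pool.Agent.P8H15.FG.Det2
import Pool.Agent.P8H15.FG.Stm3
import Pool.Agent.P8H86.FG.Fam

set_option autoImplicit false

/-! Project FG: the two theorems in the terms of the helper files. -/

namespace Pool.Agent.P8H15.FG

open Finset ArithmeticFunction Filter

/-- Both formulas hold up to `N`. -/
def Good2 (C : ℝ) (N k : ℕ) : Prop := ∀ X : ℕ, k ≤ X → X ≤ N →
  |G X k - (X * Real.log k - CQ k * X)| ≤ C * X * RR k * ((k : ℝ) / X) ^ (1 / 4 : ℝ) ∧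
  |G X k - X * Real.log k| ≤ C * X * Real.log (Real.log N) ^ 2

lemma num_le_num {α : Type} {S : Finset α} {E E' : α → Prop} (h : ∀ a ∈ S, E a → E' a) : num S E ≤ num S E' := by
  classical
  unfold num
  apply Nat.cast_le.2
  apply card_le_card
  intro a ha
  rw [mem_filter] at ha ⊢
  exact ⟨ha.1, h a ha.1 ha.2⟩

theorem fam_good (hD : S_DET2) (hF : S_FAM) (hM : S_MSM) : ∀ A : ℕ, ∃ C : ℝ, 0 < C ∧ ∀ P : ℕ, 1 ≤ P →
    ∀ ε : ℝ, 0 < ε → ∃ c : ℝ, 0 < c ∧ MostScales ε (fun N => ∀ (x : ℕ) (s : ℕ → ℤ), SmallEnergy P c N x s →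
      num (Icc 1 x) (fun m => 1 ≤ s m ∧ (N : ℝ) ≤ s m * Real.log N ^ A ∧ ¬ Good2 C N (s m).toNat) ≤
        x / saving c N) := by
  intro A
  obtain ⟨C, N0, hC, hN0, hD1⟩ := hD A
  refine ⟨C, hC, fun P hP ε hε => ?_⟩
  obtain ⟨c, hc, hF1⟩ := hF A (3 * A) P hP (ε / 2) (by positivity)
  refine ⟨c, hc, ?_⟩
  have h2 : 2 * (ε / 2) = ε := by ring
  rw [← h2]
  refine hM (ε / 2) N0 _ _ (by positivity) hF1 fun N hN hPN x s hs => ?_
  refine le_trans (num_le_num ?_) (hPN x s hs)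
  rintro m - ⟨h3, h4, h5⟩
  refine ⟨h3, h4, ?_⟩
  by_contra hcon
  push Not at hcon
  apply h5
  have h6 : 1 ≤ (s m).toNat := by omega
  have h7 : (((s m).toNat : ℕ) : ℝ) = ((s m : ℤ) : ℝ) := by
    have : (((s m).toNat : ℕ) : ℤ) = s m := Int.toNat_of_nonneg (by omega)
    exact_mod_cast this
  intro X hkX hXN
  refine hD1 N (s m).toNat X hN h6 (by rw [h7]; exact h4) hkX hXN (fun j hj hjk => ?_)
  have h8 := hcon j hj (hjk.trans hXN) (X - j * (s m).toNat) (by omega)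
  have h9 : ((X - j * (s m).toNat : ℕ) : ℝ) = (X : ℝ) - j * ((s m).toNat : ℕ) := by
    rw [Nat.cast_sub hjk]; push_cast; ring
  rwa [h9] at h8

lemma num_union {S T : Finset ℕ} {E F F' : ℕ → Prop} (h : ∀ k ∈ S, E k → (k ∈ T ∧ F k) ∨ F' k) :
    num S E ≤ num T F + num S F' := by
  classical
  unfold num
  rw [← Nat.cast_add]
  apply Nat.cast_le.2
  refine le_trans (card_le_card ?_) (card_union_le _ _)
  intro k hk
  rw [mem_filter] at hk
  rw [mem_union, mem_filter, mem_filter]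
  rcases h k hk.1 hk.2 with h1 | h1
  · exact Or.inl h1
  · exact Or.inr ⟨hk.1, h1⟩

lemma num_markov {S : Finset ℕ} {R : ℝ} (f : ℕ → ℝ) :
    R * num S (fun k => R < f k) ≤ ∑ k ∈ S.filter (fun k => R < f k), f k := by
  classical
  calc R * num S (fun k => R < f k) = ∑ _k ∈ S.filter (fun k => R < f k), R := by
        rw [sum_const, nsmul_eq_mul, mul_comm]
        unfold num
        congr
    _ ≤ ∑ k ∈ S.filter (fun k => R < f k), f k := sum_le_sum fun k hk => (mem_filter.1 hk).2.le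

lemma log_ge (c : ℝ) : ∃ N₂ : ℕ, ∀ N : ℕ, N₂ ≤ N → c ≤ Real.log N := by
  have t1 : Tendsto (fun N : ℕ => Real.log (N : ℝ)) atTop atTop :=
    Real.tendsto_log_atTop.comp tendsto_natCast_atTop_atTop
  exact eventually_atTop.1 (t1.eventually_ge_atTop c)

/-- all scales: the exceptional moduli -/
theorem all_scales (hD : S_DET2) (hG : S_GRID) : ∀ A : ℕ, ∃ C : ℝ, 0 < C ∧ ∀ V : ℕ, ∃ N₀ : ℕ, ∀ N : ℕ, N₀ ≤ N →
    num (Icc 1 N) (fun k => (N : ℝ) ≤ k * Real.log N ^ A ∧ ¬ Good2 C N k) ≤ N / Real.log N ^ V := by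
  intro A
  obtain ⟨C, N0, hC, hN0, hD1⟩ := hD A
  refine ⟨C, hC, fun V => ?_⟩
  obtain ⟨N1, hG1⟩ := hG A V (3 * A)
  refine ⟨max N0 N1, fun N hN => ?_⟩
  refine le_trans (num_le_num ?_) (hG1 N ((le_max_right _ _).trans hN))
  rintro k hk ⟨h3, h4⟩
  refine ⟨h3, fun hcon => h4 fun X hkX hXN => ?_⟩
  exact hD1 N k X ((le_max_left _ _).trans hN) (mem_Icc.1 hk).1 h3 hkX hXN (hcon X hkX hXN)

end Pool.Agent.P8H15.FG
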