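import Pool.Agent.P8H15.FG.Stm

/-!
# Project FG, second part: the second order term, and the families

FINAL THEOREM: at most scales `N`, `y = N ^ (c / log log N)`, for every family of moduli of small additive energy all but
a proportion `1/y` of the members `k ≥ N / log^A N` satisfy for all `k ≤ X ≤ N`:
`G(X,k) = X log k - C_k X + O(X R_k (k/X)^(1/4))` (the formula of the problem, with its constant
`C_k = ∑_{p ∣ k} log p / (p - 1) + γ + log(2π)`; `R_k = ∏_{p ∣ k} (1 + p^(-1/2))²` is bounded in mean), and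
`G(X,k) = X log k + O(X (log log N)²)`.
-/

set_option autoImplicit false
set_option linter.all false

namespace Pool.Agent.P8H15.FG

open Finset ArithmeticFunction
open Pool.Agent.H560R3.GB (sing C₂)

/-- The constant of the problem. -/
noncomputable def CQ (k : ℕ) : ℝ :=
  ∑ p ∈ k.primeFactors, Real.log p / ((p : ℝ) - 1) + Real.eulerMascheroniConstant + Real.log (2 * Real.pi)

/-- `R_k`, bounded in mean. -/
noncomputable def RR (k : ℕ) : ℝ := ∏ p ∈ k.primeFactors, (1 + 1 / Real.sqrt p) ^ 2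

/-- `∑_{m ∣ n} 1/m` -/
noncomputable def sg1 (n : ℕ) : ℝ := ∑ m ∈ n.divisors, 1 / (m : ℝ)

/-- `U(y) = ∑_{n ≤ y} sg1(n) (y - n)` -/
noncomputable def UU (y : ℝ) : ℝ := ∑ n ∈ Icc 1 ⌊y⌋₊, sg1 n * (y - n)

/-- its main term -/
noncomputable def MU (y : ℝ) : ℝ := Real.pi ^ 2 / 12 * y ^ 2
  - y / 2 * (Real.log y + Real.eulerMascheroniConstant + Real.log (2 * Real.pi) - 1)

/-- values at the prime powers `p^a`, `a ≥ 1` -/
noncomputable def bp (k p a : ℕ) : ℝ :=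
  if p ∣ k then (if a = 1 then -1 / (p : ℝ) else 0)
  else if a = 1 then 2 / ((p : ℝ) * (p - 2)) else if a = 2 then -1 / ((p : ℝ) * (p - 2)) else 0

/-- the multiplicative function `b_k` with `hh(·) 1_{(·,k)=1} = b_k * (1/id)` (Dirichlet convolution) -/
noncomputable def bb (k n : ℕ) : ℝ := if n = 0 then 0 else ∏ p ∈ n.primeFactors, bp k p (n.factorization p)

/-- (LAM3, 120 lines; `S_PNTL → S_LAM3`; helper5: sharper form of your LAM2) Proof: `∑ Λ(n) log n = ψ(X) log X -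
∑_{n<X} ψ(n) (log(n+1) - log n)`, `ψ(n) = n + O(n / log^B n)`, `∑_{n<X} n (log(n+1) - log n) = X log X - log X! = X + O(log X)`. -/
def S_LAM3 : Prop := ∀ B : ℕ, ∃ C : ℝ, 0 < C ∧ ∀ X : ℕ, 2 ≤ X →
  |∑ n ∈ Icc 1 X, vonMangoldt n ^ 2 - (X * Real.log X - X)| ≤ C * X / Real.log X ^ B

/-- (HARM, 60 lines) `a_n = H_n - log n - 1/(2n)` has `|a_n - a_{n+1}| ≤ C/n³`, limit `γ`. -/
def S_HARM : Prop := ∃ C : ℝ, 0 < C ∧ ∀ n : ℕ, 1 ≤ n →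
  |∑ m ∈ Icc 1 n, 1 / (m : ℝ) - (Real.log n + Real.eulerMascheroniConstant + 1 / (2 * n))| ≤ C / (n : ℝ) ^ 2

/-- (STIR, 60 lines) Mathlib: `Stirling.stirlingSeq`, `Stirling.log_stirlingSeq_sub_log_stirlingSeq_succ`,
`Stirling.tendsto_stirlingSeq_sqrt_pi`. -/
def S_STIR : Prop := ∃ C : ℝ, 0 < C ∧ ∀ n : ℕ, 1 ≤ n →
  |Real.log (n.factorial) - (n * Real.log n - n + 1 / 2 * Real.log (2 * Real.pi * n))| ≤ C / n

/-- (USQ, 200 lines; `S_HARM → S_STIR → S_USQ`) Put `y = N²`. `UU(y) = ∑_{lm ≤ y} (y/m - l)`. Hyperbola: the part `m ≤ N`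
is `∑_{m ≤ N} ((y/m)²/2 - (y/m)/2 + O(1)) = (y²/2) ∑_{m ≤ N} 1/m² - (y/2) H_N + O(N)` with
`∑_{m ≤ N} 1/m² = π²/6 - 1/N + 1/(2N²) + O(1/N³)`; the part `l ≤ N < m ≤ y/l` is `∑_{l ≤ N} (y (H(y/l) - H_N) - l (⌊y/l⌋ - N))`
with `H(x) = H_⌊x⌋ = log x + γ - ({x} - 1/2)/x + O(1/x²)`: the fractional parts cancel, it is
`∑_{l ≤ N} (y (log N - log l) - y/(2N) + l/2 - y + l N) + O(N) = y (N log N - log N! - 1/2 - N) + (N + 1/2) N (N+1)/2 + O(N)`.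
Together (`N log N - log N! = N - log(2πN)/2 + O(1/N)`): `π²/12 y² - (y/2)(2 log N + γ + log(2π) - 1) + O(N)`. -/
def S_USQ : Prop := ∃ C : ℝ, 0 < C ∧ ∀ N : ℕ, 1 ≤ N →
  |UU ((N : ℝ) ^ 2) - MU ((N : ℝ) ^ 2)| ≤ C * N

/-- (UDF, 120 lines; may assume `S_HARM`) Proof: `S(t) = ∑_{n ≤ t} sg1(n) = ∑_{m ≤ t} ⌊t/m⌋/m = π²/6 t + O(1 + log t)`. If
`z ≤ y + 1` then `S(y)(z-y) ≤ UU(z) - UU(y) ≤ S(z)(z-y)`, and `MU(z) - MU(y) = (z - y)(π²/6 y + O(1 + log z))`. In general add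
unit steps. -/
def S_UDF : Prop := ∃ C : ℝ, 0 < C ∧ ∀ y z : ℝ, 1 ≤ y → y ≤ z →
  |(UU z - MU z) - (UU y - MU y)| ≤ C * (1 + Real.log z) * (z - y)

/-- (UUU, 80 lines; `S_USQ → S_UDF → S_UUU`) Proof: `N = ⌊√y⌋`, `y - N² ≤ 2√y`. For `y < 1` the sum is empty and
`y |log y| ≤ 4 y^(3/4)`. -/
def S_UUU : Prop := ∃ C : ℝ, 0 < C ∧ ∀ y : ℝ, 0 < y → |UU y - MU y| ≤ C * y ^ (3 / 4 : ℝ)

/-- (BINV, 120 lines) Both sides are multiplicative in `j` (convolutions of multiplicative functions,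
`ArithmeticFunction.IsMultiplicative.eq_iff_eq_on_prime_powers`). At `j = p^e`, `e ≥ 1`: `p ∤ k` (odd): left
`1 + 1/(p-2)`, right `sg1(p^e) + b(p) sg1(p^(e-1)) + b(p²) sg1(p^(e-2))` (for `e ≥ 2`), the same; `p ∣ k`: both `1`. -/
def S_BINV : Prop := ∀ k j : ℕ, 1 ≤ k → Even k → 1 ≤ j →
  ∑ d ∈ j.divisors.filter (fun d => d.Coprime k), hh d =
    ∑ q ∈ j.divisorsAntidiagonal, bb k q.1 * sg1 q.2

/-- (BABS, 200 lines) The finite sums over the `n` composed of primes `≤ z` (all exponents `≤ 2`) are the products of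
`1 + |b(p)| p^(1/4) + |b(p²)| p^(1/2)`; for `p ∤ k` this is `1 + (2 p^(1/4) + p^(1/2)) / (p (p-2))`, a convergent
product. Compare `Pool.Agent.P8H52.FG.Eul`. -/
def S_BABS : Prop := ∃ C : ℝ, 0 < C ∧ ∀ k : ℕ, 1 ≤ k → Even k →
  Summable (fun n : ℕ => |bb k n| * (n : ℝ) ^ (1 / 4 : ℝ)) ∧
  ∑' n : ℕ, |bb k n| * (n : ℝ) ^ (1 / 4 : ℝ) ≤ C * ∏ p ∈ k.primeFactors, (1 + (p : ℝ) ^ (-(3 / 4) : ℝ))

/-- (BV01, 150 lines; `S_BABS → S_BV01`; uses the limit of `∏_{p ≤ z, p ∤ k} (1 + 1/(p(p-2)))` in the proof of `S_EUL`,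
`Pool.Agent.P8H52.FG.Eul`) Finite Euler products: for `p ∤ k` the factors are `1 + b(p) + b(p²) = 1 + 1/(p(p-2))` and
`1 + b(p)/p + b(p²)/p² = (1 + 1/(p(p-2))) (1 - 1/p²)`, for `p ∣ k` they are `1 - 1/p` and `1 - 1/p²`. -/
def S_BV01 : Prop := ∀ k : ℕ, 1 ≤ k → Even k →
  sing k * ∑' n : ℕ, bb k n = 1 ∧
  sing k * (Real.pi ^ 2 / 6 * ∑' n : ℕ, bb k n / n) = (k : ℝ) / Nat.totient k

/-- (BVL, 150 lines; `S_BABS → S_BV01 → S_BVL`) Let `S_z = ∑ b(n)`, `L_z = ∑ b(n) log n` over the `n` composed of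
primes `≤ z`. A new prime `p` changes them to `S (1 + b(p) + b(p²))` and
`L (1 + b(p) + b(p²)) + S (b(p) + 2 b(p²)) log p`, and `b(p) + 2 b(p²) = 0` for `p ∤ k`. So
`L_z = - S_z ∑_{p ∣ k, p ≤ z} log p / (p - 1)`; let `z → ∞`. -/
def S_BVL : Prop := ∀ k : ℕ, 1 ≤ k → Even k →
  sing k * ∑' n : ℕ, bb k n * Real.log n = - ∑ p ∈ k.primeFactors, Real.log p / ((p : ℝ) - 1)

/-- (SAW, 200 lines; `S_EXP → S_BINV → S_UUU → S_BABS → S_BV01 → S_BVL → S_SAW`) Even `k`, `J = X/k` (real). With `S_EXP` and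
`S_BINV`: `∑_{j ≤ J} sing(jk) (J - j) = sing k ∑_{a ≤ J} b(a) a UU(J/a) = sing k ∑'_a b(a) a UU(J/a)` (`UU(y) = 0` for `y < 1`).
Insert `UU = MU + O(y^(3/4))` and the values of the sums: the main term is `(J²/2) k/φ(k) - (J/2)(log J + CQ k - 1)`, the error
`C sing k J^(3/4) ∑'|b(a)| a^(1/4) ≤ C' J^(3/4) RR k` (`sing k ≤ 4 ∏_{p ∣ k} (1 + p^(-1/2))`, `1 + p^(-3/4) ≤ 1 + p^(-1/2)`).
(`X < k` is allowed: then `J < 1` and the sum is empty.) -/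
def S_SAW : Prop := ∃ C : ℝ, 0 < C ∧ ∀ X k : ℕ, 1 ≤ k → Even k → 1 ≤ X →
  |2 * ∑ j ∈ Icc 1 (X / k), sing (j * k) * ((X : ℝ) - j * k)
    - ((X : ℝ) ^ 2 / Nat.totient k - X * (Real.log (X / k) + CQ k - 1))| ≤
    C * X * RR k * ((k : ℝ) / X) ^ (1 / 4 : ℝ)

/-- (SAX, 80 lines; `S_SAW → S_SAX`) Odd `k`: this is `S_SAW` for `2k`: `φ(2k) = φ(k)`,
`log(X/(2k)) + CQ (2k) = log(X/k) + CQ k`, `RR (2k) ≤ 4 RR k`. -/
def S_SAX : Prop := ∃ C : ℝ, 0 < C ∧ ∀ X k : ℕ, 1 ≤ k → 1 ≤ X →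
  |2 * ∑ j ∈ Icc 1 (X / k), sg (j * k) * ((X : ℝ) - j * k)
    - ((X : ℝ) ^ 2 / Nat.totient k - X * (Real.log (X / k) + CQ k - 1))| ≤
    C * X * RR k * ((k : ℝ) / X) ^ (1 / 4 : ℝ)

/-! ### The families -/

open Classical in
/-- The number of the elements of the finite set `S` with the property `E`. -/
noncomputable def num {α : Type} (S : Finset α) (E : α → Prop) : ℝ := ((S.filter E).card : ℝ)

open Classical in
/-- The property `P` holds at most scales: for arbitrarily large `R` the sum of `1 / N` over the `N ≤ R`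
without the property is at most `ε log R`. -/
def MostScales (ε : ℝ) (P : ℕ → Prop) : Prop :=
  ∀ R₀ : ℕ, ∃ R : ℕ, R₀ ≤ R ∧ ∑ N ∈ (Icc 1 R).filter (fun N => ¬ P N), (1 : ℝ) / N ≤ ε * Real.log R

/-- The saving `y = N ^ (c / log log N)`. -/
noncomputable def saving (c : ℝ) (N : ℕ) : ℝ := (N : ℝ) ^ (c / Real.log (Real.log N))

/-- The additive energy of order `p` of the family `s 1, ..., s x`. -/
def energy (p x : ℕ) (s : ℕ → ℤ) : ℕ :=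
  (((Fintype.piFinset fun _ : Fin p => Icc 1 x) ×ˢ (Fintype.piFinset fun _ : Fin p => Icc 1 x)).filter
    (fun q => ∑ i, s (q.1 i) = ∑ i, s (q.2 i))).card

/-- For some order `p ≤ P` the additive energy is at most `y` times the minimal possible size `x ^ (2 p) / N`. -/
def SmallEnergy (P : ℕ) (c : ℝ) (N x : ℕ) (s : ℕ → ℤ) : Prop :=
  ∃ p : ℕ, 1 ≤ p ∧ p ≤ P ∧ (energy p x s : ℝ) * N ≤ saving c N * (x : ℝ) ^ (2 * p)

/-- (TUP; helper14 or helper15: the landed theorem `MP_e6fa8b_nt.QuasiPowerHardyLittlewood` for `k = 1`, `h₀ = 0`) -/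
def S_TUP : Prop := ∀ E P : ℕ, 1 ≤ P → ∀ ε : ℝ, 0 < ε → ∃ c : ℝ, 0 < c ∧ MostScales ε (fun N =>
  ∀ (x : ℕ) (s : ℕ → ℤ), (∀ m ∈ Icc 1 x, |s m| ≤ N) → SmallEnergy P c N x s →
    num (Icc 1 x) (fun m => 1 ≤ s m ∧ ¬ HLp E N (s m).toNat) ≤ x / saving c N)

/-- (MSM, 40 lines) Small `N` are absorbed. Proof: given `R₀` take `R` from the hypothesis with `R ≥ R₀` and
`∑_{N < N₁} 1/N ≤ ε log R`. -/
def S_MSM : Prop := ∀ (ε : ℝ) (N₁ : ℕ) (P Q : ℕ → Prop), 0 < ε → MostScales ε P → (∀ N : ℕ, N₁ ≤ N → P N → Q N) →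
  MostScales (2 * ε) Q

/-- (FAM, 200 lines; `S_TUP → S_MSM → S_FAM`; ideal: helper4, whose `Pool.Agent.P8H4.GQ.sub` is the passage to subfamilies)
Proof: take `c₁` from `S_TUP` (with `ε/2`) and `c = c₁ / (2 (1 + 4 P))`; `y = saving c N`, `y₁ = saving c₁ N = y^(c₁/c)`. For large `N`,
`log^A N ≤ y`. For `1 ≤ j ≤ log^A N` let `T_j = {m : 1 ≤ s m, N ≤ s m log^A N, j s m ≤ N}`. If `|T_j| ≤ x / y²`, nothing is to
do. Otherwise the family `j s m` (`m ∈ T_j`, enumerated) has energy `≤ energy p x s ≤ y x^(2p) / N ≤ y^(1+4p) |T_j|^(2p) / N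
≤ y₁ |T_j|^(2p) / N`, and all its members are in `[1, N]`: at most `|T_j| / y₁ ≤ x / y²` of them are bad. The sum over
`j ≤ log^A N ≤ y` is at most `x / y`. (If `j s m ≤ N` and `N ≤ s m log^A N` then `j ≤ log^A N`.) -/
def S_FAM : Prop := ∀ A E P : ℕ, 1 ≤ P → ∀ ε : ℝ, 0 < ε → ∃ c : ℝ, 0 < c ∧ MostScales ε (fun N =>
  ∀ (x : ℕ) (s : ℕ → ℤ), SmallEnergy P c N x s →
    num (Icc 1 x) (fun m => 1 ≤ s m ∧ (N : ℝ) ≤ s m * Real.log N ^ A ∧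
      ∃ j : ℕ, 1 ≤ j ∧ j * (s m).toNat ≤ N ∧ ¬ HLp E N (j * (s m).toNat)) ≤ x / saving c N)

/-- (RMN, 100 lines, optional) `R_k` is bounded in mean: `∏_{p ∣ k} (1 + p^(-1/2))² = ∑_{d ∣ k, d squarefree} g(d)`,
`g(p) = 2 p^(-1/2) + 1/p`, so the mean is at most `∏_p (1 + g(p)/p)`. -/
def S_RMN : Prop := ∃ C : ℝ, 0 < C ∧ ∀ K : ℕ, ∑ k ∈ Icc 1 K, RR k ≤ C * K

end Pool.Agent.P8H15.FG
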