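import Pool.Agent.P8H52.GQ.Sng
import Pool.Agent.P8H15.FG.Stm2

set_option autoImplicit false

/-! Project FG: the singular series of a pair. -/

namespace Pool.Agent.P8H15.FG

open Finset Filter Topology
open Pool.Agent.P8H14.SS (SG PX bet mem_PX tendsto_SG)
open Pool.Agent.H560R3.GB (sing C₂)
open Pool.Agent.P8H52.GQ (bet_pair sng)

theorem sge (h : ℕ) (hh : 1 ≤ h) : SG ![0, h] = sg h := by
  unfold sg
  split_ifs with he
  · exact sng h hh he
  · have hinj : Function.Injective (![0, h] : Fin 2 → ℕ) := by
      intro i j hij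
      fin_cases i <;> fin_cases j <;> simp at hij ⊢ <;> omega
    have h1 := tendsto_SG hinj
    have h2 : Tendsto (fun X => ∏ p ∈ PX X, bet ![0, h] p) atTop (𝓝 0) := by
      refine Tendsto.congr' ?_ (tendsto_const_nhds (x := (0 : ℝ)))
      filter_upwards [eventually_ge_atTop 2] with X hX
      symm
      apply prod_eq_zero (i := 2) (mem_PX.2 ⟨hX, Nat.prime_two⟩)
      rw [bet_pair Nat.prime_two, if_neg (by rwa [even_iff_two_dvd] at he)]
      norm_num
    exact tendsto_nhds_unique h1 h2

end Pool.Agent.P8H15.FG
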