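import Pool.Agent.P8H14.PL.N4
import Pool.Agent.P8H15.FG.Sge

set_option autoImplicit false

/-! Project FG: the input, one moving shift. -/

namespace Pool.Agent.P8H15.FG

open Finset Filter Topology
open Pool.Agent.P8H14.SS (SG PX bet mem_PX tendsto_SG)
open Pool.Agent.H560R3.GB (sing C₂)
open Pool.Agent.P8H52.GQ (bet_pair sng)

theorem hl_of {E N h : ℕ} (hh : 1 ≤ h)
    (H : Pool.Agent.P8H14.PL.HLn E N (Fin.cons 0 (fun _ : Fin 1 => h) : Fin (1 + 1) → ℕ)) : HLp E N h := by
  intro X hX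
  have h1 := H X hX
  have h2 : (Fin.cons 0 (fun _ : Fin 1 => h) : Fin (1 + 1) → ℕ) = ![0, h] := by
    funext i
    fin_cases i <;> rfl
  rw [h2, sge h hh] at h1
  simpa [Fin.prod_univ_two] using h1

lemma num_inj {α β : Type} {S : Finset α} {T : Finset β} {E : α → Prop} {F : β → Prop} (f : α → β)
    (hf : ∀ a ∈ S, E a → f a ∈ T ∧ F (f a)) (hinj : ∀ a b, f a = f b → a = b) :
    num S E ≤ Pool.Agent.P8H14.PL.num T F := by
  classical
  unfold num Pool.Agent.P8H14.PL.num
  apply Nat.cast_le.2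
  apply card_le_card_of_injOn f
  · intro m hm
    rw [mem_coe, mem_filter] at hm
    rw [mem_coe, mem_filter]
    exact hf m hm.1 hm.2
  · intro m _ m' _ hmm
    exact hinj m m' hmm

theorem tup : S_TUP := by
  intro E P hP ε hε
  classical
  obtain ⟨c, hc, hmost⟩ := Pool.Agent.P8H14.PL.main_QP 1 E 1 P le_rfl hP ∅ hε
  refine ⟨c, hc, ?_⟩
  intro R₀
  obtain ⟨R, hR, h3⟩ := hmost R₀
  refine ⟨R, hR, le_trans ?_ h3⟩
  apply sum_le_sum_of_subset_of_nonneg
  · intro N hN
    simp only [mem_filter] at hN ⊢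
    refine ⟨hN.1, fun hcon => hN.2 ?_⟩
    have hN1 : 1 ≤ N := (mem_Icc.1 hN.1).1
    obtain ⟨-, hT, -⟩ := hcon
    intro x s hs hen
    have hsav : saving c N = Pool.Agent.P8H14.QP.sav c N := by
      unfold saving Pool.Agent.P8H14.QP.sav
      have hN0 : (0 : ℝ) < N := by exact_mod_cast hN1
      rw [Real.rpow_def_of_pos hN0]
      congr 1
      ring
    unfold SmallEnergy at hen
    rw [hsav] at hen ⊢
    have h4 := hT 0 (Nat.zero_le _) (fun _ => x) (fun _ => s) (fun _ => ⟨fun m hm => by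
      have := hs m hm
      push_cast
      linarith, Or.inl hen⟩)
    have h5 : (∏ _i : Fin 1, (x : ℝ)) = x := by simp
    rw [h5] at h4
    refine le_trans ?_ h4
    refine num_inj (fun m => (fun _ : Fin 1 => m)) (fun m hm hE => ?_) (fun a b hab => congrFun hab 0)
    have h6 : 1 ≤ (s m).toNat := by have := hE.1; omega
    refine ⟨Fintype.mem_piFinset.2 (fun _ => hm), fun _ => by have := hE.1; show 0 ≤ s m; omega, ?_, ?_⟩
    · intro i j hij
      unfold Pool.Agent.P8H14.PL.sh at hij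
      fin_cases i <;> fin_cases j <;> simp at hij ⊢ <;> omega
    · intro H
      exact hE.2 (hl_of h6 H)
  · intro _ _ _
    positivity

end Pool.Agent.P8H15.FG
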