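import Pool.Agent.P8H15.FG.Base
import Pool.Agent.P8H15.FG.Fin
import Pool.Agent.P8H15.FG.Tup

set_option autoImplicit false

/-! Project FG: thin families at most scales. -/

namespace Pool.Agent.P8H15.FG

open Finset

/-- thin families -/
theorem families : ∀ A : ℕ, ∃ C : ℝ, 0 < C ∧ ∀ P : ℕ, 1 ≤ P → ∀ ε : ℝ, 0 < ε → ∃ c : ℝ, 0 < c ∧
    MostScales ε (fun N => ∀ (x : ℕ) (s : ℕ → ℤ), SmallEnergy P c N x s →
      num (Icc 1 x) (fun m => 1 ≤ s m ∧ (N : ℝ) ≤ s m * Real.log N ^ A ∧ ¬ Good2 C N (s m).toNat) ≤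
        x / saving c N) :=
  fam_good det_all (Pool.Agent.P8H86.FG.fam tup Pool.Agent.P8H45.FG.msm) Pool.Agent.P8H45.FG.msm

end Pool.Agent.P8H15.FG
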