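import Pool.Agent.P8H15.FG.Fin

set_option autoImplicit false

/-! Project FG: almost all moduli, all scales. -/

namespace Pool.Agent.P8H15.FG

open Finset ArithmeticFunction Filter

theorem one_scale (hR : S_RMN) {C δ : ℝ} (hC : 0 < C) (hδ : 0 < δ) : ∃ J : ℕ, 1 ≤ J ∧ ∀ (A N K : ℕ),
    (N : ℝ) ≤ K * Real.log N ^ A →
    num (Icc 1 N) (fun k => (N : ℝ) ≤ k * Real.log N ^ A ∧ ¬ Good2 C N k) ≤ δ / 2 * K →
      num (Ioc K (2 * K)) (fun k => ¬ ∀ X : ℕ, J * k ≤ X → X ≤ N →
        |G X k - (X * Real.log k - CQ k * X)| ≤ δ * X) ≤ δ * K := by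
  classical
  obtain ⟨C', hC', h2⟩ := hR
  obtain ⟨R, hRdef⟩ : ∃ R : ℝ, R = 4 * C' / δ := ⟨_, rfl⟩
  have hR0 : 0 < R := by rw [hRdef]; positivity
  refine ⟨⌈(C * R / δ) ^ 4⌉₊ + 1, by omega, fun A N K hK hbad => ?_⟩
  obtain ⟨J, hJ⟩ : ∃ J : ℕ, J = ⌈(C * R / δ) ^ 4⌉₊ + 1 := ⟨_, rfl⟩
  rw [← hJ]
  have hJ1 : 1 ≤ J := by omega
  have hJ4 : (C * R / δ) ^ 4 ≤ J := by
    rw [hJ]; push_cast
    linarith [Nat.le_ceil ((C * R / δ) ^ 4)]
  have hlog0 : 0 ≤ Real.log N := Real.log_natCast_nonneg N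
  -- Markov
  have hmark : num (Ioc K (2 * K)) (fun k => R < RR k) ≤ δ / 2 * K := by
    have h5 : R * num (Ioc K (2 * K)) (fun k => R < RR k) ≤ C' * (2 * K) := by
      calc R * num (Ioc K (2 * K)) (fun k => R < RR k)
          ≤ ∑ k ∈ (Ioc K (2 * K)).filter (fun k => R < RR k), RR k := num_markov RR
        _ ≤ ∑ k ∈ Icc 1 (2 * K), RR k := by
            apply sum_le_sum_of_subset_of_nonneg
            · intro k hk
              rw [mem_filter, mem_Ioc] at hk
              rw [mem_Icc]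
              omega
            · intro k _ _
              exact le_trans zero_le_one (one_le_RR k)
        _ ≤ C' * ((2 * K : ℕ) : ℝ) := h2 (2 * K)
        _ = C' * (2 * K) := by push_cast; ring
    have h6 : R * (δ / 2 * K) = C' * (2 * K) := by rw [hRdef]; field_simp; ring
    rw [← h6] at h5
    exact le_of_mul_le_mul_left h5 hR0
  -- the union
  have hun : num (Ioc K (2 * K)) (fun k => ¬ ∀ X : ℕ, J * k ≤ X → X ≤ N →
        |G X k - (X * Real.log k - CQ k * X)| ≤ δ * X) ≤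
      num (Icc 1 N) (fun k => (N : ℝ) ≤ k * Real.log N ^ A ∧ ¬ Good2 C N k) + num (Ioc K (2 * K)) (fun k => R < RR k) := by
    refine num_union fun k hkm hkE => ?_
    have hk := And.intro (mem_Ioc.1 hkm) hkE
    by_cases hRk : R < RR k
    · exact Or.inr hRk
    refine Or.inl ?_
    rw [mem_Icc]
    push Not at hRk
    have hkpos : (0 : ℝ) < k := by exact_mod_cast (by omega : 0 < k)
    have hkN : k ≤ N := by
      by_contra hcon
      apply hk.2
      intro X hX1 hX2
      exfalso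
      have : k ≤ J * k := Nat.le_mul_of_pos_left k hJ1
      omega
    refine ⟨⟨by omega, hkN⟩, ?_, ?_⟩
    · have h5 : (K : ℝ) ≤ k := by exact_mod_cast hk.1.1.le
      exact hK.trans (mul_le_mul_of_nonneg_right h5 (pow_nonneg hlog0 A))
    · intro hgood
      apply hk.2
      intro X hX1 hX2
      have hkX : k ≤ X := (Nat.le_mul_of_pos_left k hJ1).trans hX1
      have h6 := (hgood X hkX hX2).1
      refine h6.trans ?_
      have hXpos : (0 : ℝ) < X := by exact_mod_cast (by omega : 0 < X)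
      obtain ⟨t, ht⟩ : ∃ t : ℝ, t = ((k : ℝ) / X) ^ (1 / 4 : ℝ) := ⟨_, rfl⟩
      rw [← ht]
      have ht0 : 0 ≤ t := by rw [ht]; positivity
      have ht4 : t ^ 4 = (k : ℝ) / X := by
        rw [ht, ← Real.rpow_natCast, ← Real.rpow_mul (by positivity)]
        norm_num
      have hu : C * R * t ≤ δ := by
        have h7 : (C * R * t) ^ 4 ≤ δ ^ 4 := by
          have h8 : (k : ℝ) / X * J ≤ 1 := by
            rw [div_mul_eq_mul_div, div_le_one hXpos]
            have : ((J * k : ℕ) : ℝ) ≤ X := by exact_mod_cast hX1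
            push_cast at this
            linarith
          have h9 : (C * R / δ) ^ 4 * t ^ 4 ≤ 1 := by
            rw [ht4]
            calc (C * R / δ) ^ 4 * ((k : ℝ) / X) ≤ J * ((k : ℝ) / X) :=
                  mul_le_mul_of_nonneg_right hJ4 (by positivity)
              _ ≤ 1 := by linarith
          have h10 : (C * R * t) ^ 4 = δ ^ 4 * ((C * R / δ) ^ 4 * t ^ 4) := by field_simp
          rw [h10]
          calc δ ^ 4 * ((C * R / δ) ^ 4 * t ^ 4) ≤ δ ^ 4 * 1 := mul_le_mul_of_nonneg_left h9 (by positivity)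
            _ = _ := mul_one _
        exact (pow_le_pow_iff_left₀ (by positivity) hδ.le (by norm_num)).1 h7
      calc C * X * RR k * t ≤ C * X * R * t := by
            apply mul_le_mul_of_nonneg_right _ ht0
            exact mul_le_mul_of_nonneg_left hRk (by positivity)
        _ = (C * R * t) * X := by ring
        _ ≤ δ * X := mul_le_mul_of_nonneg_right hu hXpos.le
  refine hun.trans ?_
  have : δ / 2 * K + δ / 2 * K = δ * K := by ring
  linarith


theorem almost_scales (hD : S_DET2) (hG : S_GRID) (hR : S_RMN) : ∀ (A : ℕ) (δ : ℝ), 0 < δ → ∃ J N₀ : ℕ,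
    ∀ N K : ℕ, N₀ ≤ N → (N : ℝ) ≤ K * Real.log N ^ A →
      num (Ioc K (2 * K)) (fun k => ¬ ∀ X : ℕ, J * k ≤ X → X ≤ N →
        |G X k - (X * Real.log k - CQ k * X)| ≤ δ * X) ≤ δ * K := by
  intro A δ hδ
  obtain ⟨C, hC, h1⟩ := all_scales hD hG A
  obtain ⟨J, -, h2⟩ := one_scale hR hC hδ
  obtain ⟨N₁, h3⟩ := h1 (A + 1)
  obtain ⟨N₂, h4⟩ := log_ge (2 / δ)
  obtain ⟨N₃, h5⟩ := log_ge 1
  refine ⟨J, max N₁ (max N₂ N₃), fun N K hN hK => h2 A N K hK ((h3 N ((le_max_left _ _).trans hN)).trans ?_)⟩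
  have h6 := h4 N (((le_max_left _ _).trans (le_max_right _ _)).trans hN)
  have h7 := h5 N (((le_max_right _ _).trans (le_max_right _ _)).trans hN)
  have hL0 : 0 < Real.log N := by linarith
  rw [div_le_iff₀ (by positivity), pow_succ]
  have h8 : (K : ℝ) * Real.log N ^ A * 1 ≤ K * Real.log N ^ A * (δ / 2 * Real.log N) := by
    apply mul_le_mul_of_nonneg_left _ (by positivity)
    rw [div_le_iff₀ hδ] at h6
    linarith
  calc (N : ℝ) ≤ K * Real.log N ^ A := hK
    _ ≤ K * Real.log N ^ A * (δ / 2 * Real.log N) := by linarith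
    _ = _ := by ring

end Pool.Agent.P8H15.FG
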