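import Pool.Agent.P8H15.FG.Stm3
import Pool.Agent.P8H15.FG.Sge
import Pool.Agent.Y883.GJ.Pairs2
import Pool.Agent.Y883.GJ.AsmC
import Pool.Agent.Y883.GJ.Asm

set_option autoImplicit false

/-! Project FG: the pair formula at all scales. -/

namespace Pool.Agent.P8H15.FG

open Finset Filter Topology
open Pool.Agent.P8H14.SS (SG PX bet mem_PX tendsto_SG)
open Pool.Agent.P8H52.GQ (bet_pair)

lemma nuP_pair (h : ℕ) {p : ℕ} (hp : p.Prime) :
    Pool.Agent.H373R2.T7.nuP (Pool.Agent.W93.GB.sh h) p = if p ∣ h then 1 else 2 := by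
  unfold Pool.Agent.H373R2.T7.nuP Pool.Agent.W93.GB.sh
  have hpp := hp.pos
  have e : (range p).filter (fun r : ℕ => p ∣ r ∨ ∃ i : Fin 1, (p : ℤ) ∣ (r : ℤ) + (fun _ : Fin 1 => -(h : ℤ)) i) =
      {0, h % p} := by
    ext r
    rw [mem_filter, mem_range, mem_insert, mem_singleton]
    constructor
    · rintro ⟨h1, h2 | ⟨_, h2⟩⟩
      · left
        exact Nat.eq_zero_of_dvd_of_lt h2 h1
      · right
        have h3 : (h : ℤ) ≡ r [ZMOD p] := (Int.modEq_iff_dvd).2 (by simpa [sub_eq_add_neg] using h2)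
        have h4 : h ≡ r [MOD p] := (Int.natCast_modEq_iff).1 h3
        have h5 : h % p = r % p := h4
        rw [h5, Nat.mod_eq_of_lt h1]
    · rintro (rfl | rfl)
      · exact ⟨hpp, Or.inl (dvd_zero _)⟩
      · refine ⟨Nat.mod_lt _ hpp, Or.inr ⟨0, ?_⟩⟩
        have h4 : h ≡ h % p [MOD p] := (Nat.mod_modEq h p).symm
        have h3 : (h : ℤ) ≡ ((h % p : ℕ) : ℤ) [ZMOD p] := (Int.natCast_modEq_iff).2 h4
        have h5 := (Int.modEq_iff_dvd).1 h3
        simpa [sub_eq_add_neg] using h5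
  refine (congrArg card e).trans ?_
  split_ifs with hd
  · rw [Nat.mod_eq_zero_of_dvd hd]; simp
  · rw [card_pair]
    intro h0
    exact hd (Nat.dvd_of_mod_eq_zero h0.symm)

lemma singZ_lim (h : ℕ) (hh : 1 ≤ h) :
    Tendsto (fun z => Pool.Agent.H373R2.T7.singZ (Pool.Agent.W93.GB.sh h) z) atTop (𝓝 (sg h)) := by
  have hinj : Function.Injective (![0, h] : Fin 2 → ℕ) := by
    intro i j hij
    fin_cases i <;> fin_cases j <;> simp at hij ⊢ <;> omega
  have h1 := tendsto_SG hinj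
  rw [sge h hh] at h1
  refine Tendsto.congr (fun z => ?_) h1
  unfold Pool.Agent.H373R2.T7.singZ
  have hPX : PX z = (Icc 1 z).filter Nat.Prime := by
    ext p
    rw [mem_PX, mem_filter, mem_Icc]
    constructor
    · rintro ⟨a, b⟩; exact ⟨⟨b.one_le, a⟩, b⟩
    · rintro ⟨⟨_, a⟩, b⟩; exact ⟨a, b⟩
  rw [hPX]
  apply prod_congr rfl
  intro p hp
  have hp' := (mem_filter.1 hp).2
  rw [bet_pair hp', nuP_pair h hp']
  have h2 : (2 : ℝ) ≤ p := by exact_mod_cast hp'.two_le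
  split_ifs
  · rw [mul_comm, ← div_eq_mul_inv]; norm_num
  · rw [mul_comm, ← div_eq_mul_inv]; norm_num

/-- reindexing of the pairs -/
lemma pair_sum (N h : ℕ) (hh : h ≤ N) : Pool.Agent.Y883.GJ.PS N h =
    ∑ n ∈ Icc 1 (N - h), ArithmeticFunction.vonMangoldt n * ArithmeticFunction.vonMangoldt (n + h) := by
  classical
  unfold Pool.Agent.Y883.GJ.PS Pool.Agent.H373R2.T7.lamI
  have e1 : ∑ n ∈ Icc 1 N, ArithmeticFunction.vonMangoldt n *
      (if 1 ≤ (n : ℤ) - h then ArithmeticFunction.vonMangoldt ((n : ℤ) - h).toNat else 0) =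
      ∑ n ∈ (Icc 1 N).filter (fun n : ℕ => 1 ≤ (n : ℤ) - h),
        ArithmeticFunction.vonMangoldt n * ArithmeticFunction.vonMangoldt ((n : ℤ) - h).toNat := by
    rw [sum_filter]
    apply sum_congr rfl
    intro n _
    split_ifs
    · rfl
    · rw [mul_zero]
  rw [e1]
  symm
  apply sum_nbij (fun n => n + h)
  · intro n hn
    rw [mem_Icc] at hn
    rw [mem_filter, mem_Icc]
    omega
  · intro x _ y _ hxy
    simp only at hxy
    omega
  · intro n hn
    rw [mem_coe, mem_filter, mem_Icc] at hn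
    refine ⟨n - h, ?_, ?_⟩
    · rw [mem_coe, mem_Icc]
      omega
    · simp only
      omega
  · intro n _
    have e2 : (((n + h : ℕ) : ℤ) - h).toNat = n := by
      rw [Nat.cast_add, add_sub_cancel_right, Int.toNat_natCast]
    rw [e2, mul_comm]

lemma num_le_card {S T : Finset ℕ} {E : ℕ → Prop} (h : ∀ k ∈ S, E k → k ∈ T) : num S E ≤ (T.card : ℝ) := by
  classical
  unfold num
  apply Nat.cast_le.2
  apply card_le_card
  intro k hk
  rw [mem_filter] at hk
  exact h k hk.1 hk.2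

theorem pall : S_PALL := by
  classical
  intro E
  obtain ⟨N₁, hp⟩ := Pool.Agent.Y883.GJ.pairs_every Pool.Agent.Y883.GJ.coreC_all Pool.Agent.Y883.GJ.model_all
    (1 / 4) (by norm_num) E 0
  refine ⟨max N₁ 1, fun N hN => ?_⟩
  have hN1 : 1 ≤ N := (le_max_right _ _).trans hN
  have h1 := hp N ((le_max_left _ _).trans hN) 1 le_rfl (by
    have h2 : (1 : ℝ) ≤ N := by exact_mod_cast hN1
    have h3 := Real.one_le_rpow h2 (by norm_num : (0 : ℝ) ≤ 1 / 2 - 1 / 4)
    simpa using h3) 0 (by simp)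
  have h4 : (N : ℝ) / ((1 : ℕ) * Real.log N ^ E) = N / Real.log N ^ E := by push_cast; rw [one_mul]
  rw [h4] at h1
  refine le_trans ?_ h1
  refine num_le_card fun h hh0 hE => ?_
  unfold Pool.Agent.Y883.GJ.badp
  rw [mem_filter]
  refine ⟨hh0, by rw [Nat.mod_one, Nat.mod_one], fun hgood => hE ?_⟩
  obtain ⟨⟨S, hS1, hS2, -⟩, -⟩ := hgood
  have hh1 := mem_Icc.1 hh0
  have e1 := tendsto_nhds_unique hS1 (singZ_lim h hh1.1)
  unfold PairN
  rw [← pair_sum N h hh1.2, ← e1]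
  exact hS2

end Pool.Agent.P8H15.FG
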