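import Pool.Agent.P8H15.FG.Base
import Pool.Agent.P8H15.FG.Fin3
import Pool.Agent.P8H15.FG.Pall
import Pool.Agent.P8H44.FG.Sgb
import Pool.Agent.P8H65.FG.Grid
import Pool.Agent.P8H7.FG.Rmn

set_option autoImplicit false

/-! Project FG: all scales. -/

namespace Pool.Agent.P8H15.FG

open Finset

/-- the pair formulas for all `X` -/
theorem grid_all : S_GRID :=
  Pool.Agent.P8H65.FG.grid pall (Pool.Agent.P8H44.FG.sgb Pool.Agent.P8H52.FG.eul Pool.Agent.P8H86.FG.tot)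

/-- all scales -/
theorem scales : ∀ A : ℕ, ∃ C : ℝ, 0 < C ∧ ∀ V : ℕ, ∃ N₀ : ℕ, ∀ N : ℕ, N₀ ≤ N →
    num (Icc 1 N) (fun k => (N : ℝ) ≤ k * Real.log N ^ A ∧ ¬ Good2 C N k) ≤ N / Real.log N ^ V :=
  all_scales det_all grid_all

/-- almost all moduli -/
theorem almost : ∀ (A : ℕ) (δ : ℝ), 0 < δ → ∃ J N₀ : ℕ,
    ∀ N K : ℕ, N₀ ≤ N → (N : ℝ) ≤ K * Real.log N ^ A →
      num (Ioc K (2 * K)) (fun k => ¬ ∀ X : ℕ, J * k ≤ X → X ≤ N →
        |G X k - (X * Real.log k - CQ k * X)| ≤ δ * X) ≤ δ * K :=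
  almost_scales det_all grid_all Pool.Agent.P8H7.FG.rmn

end Pool.Agent.P8H15.FG
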