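import Mathlib
import Pool.Agent.H560R3.GB.Defs

/-!
# Project FG: the asymptotic formula of Friedlander and Goldston for almost all moduli of thin families, at most scales

Row MP_5dd4bb_nt.  `G(X,k) = ∑_{(a,k)=1} (ψ(X;k,a) - X/φ(k))²`.  THEOREM: at most scales `N`, with
`y = N ^ (c / log log N)`: for every family of moduli of small additive energy (all integers, any set of density at
least `1/y`, thin families), all but a proportion `1/y` of its members `k ≥ N / log^A N` satisfy for ALL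
`k ≤ X ≤ N`: `G(X,k) = X log k + O(X (log log N)²)`.  Input: the Hardy-Littlewood formula for the pairs with the
differences `j k`, `j ≤ log^A N` (landed: `MP_e6fa8b_nt.QuasiPowerHardyLittlewood`, helper14).

The packages below are elementary and independent of each other; deliver `theorem gex : S_GEX` etc. in your own
directory `Pool/Agent/P8H(you)/FG/Gex.lean` (packages may assume others as hypotheses where this is said).
`sing` is `Pool.Agent.H560R3.GB.sing n = 2 C₂ ∏_{p ∣ n, p > 2} (p - 1) / (p - 2)`, `C₂` the twin prime constant.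
-/

set_option autoImplicit false
set_option linter.all false

namespace Pool.Agent.P8H15.FG

open Finset ArithmeticFunction
open Pool.Agent.H560R3.GB (sing C₂)

/-- The variance `G(X,k)`. -/
noncomputable def G (X k : ℕ) : ℝ := ∑ a ∈ (range k).filter (fun a => a.Coprime k),
  ((∑ n ∈ (Icc 1 X).filter (fun n => n ≡ a [MOD k]), vonMangoldt n) - X / Nat.totient k) ^ 2

/-- The singular series of the pair `(0, h)`. -/
noncomputable def sg (h : ℕ) : ℝ := if Even h then sing h else 0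

/-- The Hardy-Littlewood formula for the pairs with difference `h`, up to `N`. -/
def HLp (A N h : ℕ) : Prop := ∀ X : ℕ, X ≤ N →
  |∑ n ∈ Icc 1 X, vonMangoldt n * vonMangoldt (n + h) - sg h * X| ≤ N / Real.log N ^ A

/-- `∏_{p ∣ d} 1 / (p - 2)` for squarefree odd `d`. -/
noncomputable def hh (d : ℕ) : ℝ := if Squarefree d ∧ Odd d then ∏ p ∈ d.primeFactors, 1 / ((p : ℝ) - 2) else 0

/-- (GEX, 120 lines) Expansion of the squares. Proof: `∑_a (ψ_a - X/φ)² = ∑_a ψ_a² - 2 (X/φ) ∑_a ψ_a + X²/φ` (there are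
`φ(k)` classes `a`); `∑_a ψ_a = ∑_{(n,k)=1} Λ(n)`, and `∑_a ψ_a²` is the sum of `Λ(m) Λ(n)` over the pairs `m ≡ n mod k`
prime to `k`: the diagonal and twice the pairs `n = m + j k`, `j ≥ 1`, `m + j k ≤ X`. -/
def S_GEX : Prop := ∀ X k : ℕ, 1 ≤ k →
  G X k = ∑ n ∈ (Icc 1 X).filter (fun n => n.Coprime k), vonMangoldt n ^ 2
    + 2 * ∑ j ∈ Icc 1 (X / k), ∑ n ∈ (Icc 1 (X - j * k)).filter (fun n => n.Coprime k),
        vonMangoldt n * vonMangoldt (n + j * k)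
    - 2 * (X / Nat.totient k) * ∑ n ∈ (Icc 1 X).filter (fun n => n.Coprime k), vonMangoldt n
    + (X : ℝ) ^ 2 / Nat.totient k

/-- (PNTL, 60 lines) The prime number theorem with any power of the logarithm. It is in the library, e.g. in the cone of
`Pool.Agent.R518.Drift`, `Pool.Agent.H343E`, `Pool.Agent.W66`, `Pool.Agent.Helper112` (Siegel-Walfisz); find it and
convert. -/
def S_PNTL : Prop := ∀ A : ℕ, ∃ C : ℝ, 0 < C ∧ ∀ X : ℕ, 2 ≤ X →
  |∑ n ∈ Icc 1 X, vonMangoldt n - X| ≤ C * X / Real.log X ^ A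

/-- (LAM2, 120 lines; may assume `S_PNTL`) Proof: `∑ Λ(n) log n = ψ(X) log X - ∑_{n<X} ψ(n) (log(n+1) - log n)` (Abel),
`ψ(n) = n + O(n / log n)`, so it is `X log X + O(X)`; `0 ≤ ∑ Λ(n) (log n - Λ(n)) = O(√X log² X)` (only the prime powers
`p^a`, `a ≥ 2`, contribute; `ψ(X) - θ(X) ≤ C √X` is `Chebyshev.psi_sub_theta_le_mul_sqrt` or similar). -/
def S_LAM2 : Prop := ∃ C : ℝ, 0 < C ∧ ∀ X : ℕ, 2 ≤ X →
  |∑ n ∈ Icc 1 X, vonMangoldt n ^ 2 - X * Real.log X| ≤ C * X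

/-- (NCO, 80 lines) Proof: `Λ(n) ≠ 0` and `(n,k) > 1` mean `n = p^a`, `p ∣ k`. For each `p` the sum over `a` is at most
`log X`, and `k` has at most `log k / log 2` prime factors. -/
def S_NCO : Prop := ∀ X k : ℕ, 1 ≤ k → k ≤ X →
  ∑ n ∈ (Icc 1 X).filter (fun n => ¬ n.Coprime k), vonMangoldt n ≤ 2 * Real.log X ^ 2

/-- (TOT, 60 lines) `k / φ(k) ≤ C log log N`. Proof: the primes `p ∣ k`, `p ≤ log N`, give at most
`∏_{p ≤ log N} p/(p-1) ≤ C log log N` (Mertens; search the library, e.g. `Pool.Agent.Helper256`, or bound the product by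
`∑_{n ≤ z} 1/n`-free arguments), the others at most `(1 + 2 / log N) ^ (2 log N)`. Probably in the library: search for
totient. -/
def S_TOT : Prop := ∃ C : ℝ, 0 < C ∧ ∀ k N : ℕ, 16 ≤ N → 1 ≤ k → k ≤ N →
  (k : ℝ) / Nat.totient k ≤ C * Real.log (Real.log N)

/-- (HSU, 80 lines) Proof: the sum is at most `∏_{2 < p ≤ D} (1 + 1/(p-2)) = ∏ (p-1)/(p-2)`, which is at most
`∏_{2 < p ≤ D} p/(p-1) · ∏ (p-1)²/(p(p-2)) ≤ C ∏_{p ≤ D} p/(p-1)`, Mertens: `≤ C' (1 + log D)`. -/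
def S_HSU : Prop := ∃ C : ℝ, 0 < C ∧ ∀ D : ℕ, 1 ≤ D → ∑ d ∈ Icc 1 D, hh d ≤ C * (1 + Real.log D)

/-- (EXP, 60 lines) Proof: `sing (j k) / sing k` is the product of `(p-1)/(p-2) = 1 + 1/(p-2)` over the odd primes `p ∣ j`,
`p ∤ k`; expand. (`k` is even, so the `d` prime to `k` are odd.) -/
def S_EXP : Prop := ∀ j k : ℕ, 1 ≤ j → 1 ≤ k → Even k →
  sing (j * k) = sing k * ∑ d ∈ j.divisors.filter (fun d => d.Coprime k), hh d

/-- (EUL, 150 lines) The Euler product. Proof: `∑'_{(d,k)=1} hh d / d = ∏_{p ∤ k} (1 + 1/(p(p-2)))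
= ∏_{p ∤ k} (p-1)²/(p(p-2)) = C₂⁻¹ ∏_{p ∣ k, p>2} (1 - 1/(p-1)²)`, and `2 ∏_{p ∣ k, p > 2} p/(p-1) = k/φ(k)`. For the Euler product:
finite products over the primes `≤ z` are the sums over the squarefree `d` with all primes `≤ z`; `C₂` is the infimum,
so the limit, of the finite products (compare `Pool.Agent.P8H52.GQ.cp_tendsto` in `Pool/Agent/P8H52/GQ/Sng.lean`). The
bound `hh d / d ≤ C d^(-3/2)` or the boundedness of the finite products gives the summability. -/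
def S_EUL : Prop := ∀ k : ℕ, 1 ≤ k → Even k →
  Summable (fun d : ℕ => if d.Coprime k then hh d / d else 0) ∧
  sing k * ∑' d : ℕ, (if d.Coprime k then hh d / d else 0) = (k : ℝ) / Nat.totient k

/-- (SAVE, 200 lines; `S_HSU → S_EXP → S_EUL → S_SAVE`) Even `k`. Proof: with `J = X/k` (real, `≥ 1`) the sum is, by `S_EXP`,
`k sing k ∑_{d ≤ J, (d,k)=1} hh d ∑_{m ≤ J/d} (J - d m)`, and `0 ≤ J²/(2d) - ∑_{m ≤ J/d} (J - d m) ≤ J`. By `S_HSU` this is
`k sing k (J²/2) ∑_{d ≤ J, (d,k)=1} hh d / d + O(k sing k J (1 + log J))`; the tail `∑_{d > J} hh d / d` is at most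
`C (1 + log J) / J` (dyadic blocks and `S_HSU`), and `sing k ≤ k/φ(k)` (from `S_EUL`, the term `d = 1`). With `S_EUL` the main
term is `(1/2) X²/φ(k)`. -/
def S_SAVE : Prop := ∃ C : ℝ, 0 < C ∧ ∀ X k : ℕ, 1 ≤ k → Even k → k ≤ X →
  |2 * ∑ j ∈ Icc 1 (X / k), sing (j * k) * ((X : ℝ) - j * k) - (X : ℝ) ^ 2 / Nat.totient k| ≤
    C * X * ((k : ℝ) / Nat.totient k) * (1 + Real.log (X / k))

/-- (SAV, 60 lines; `S_SAVE → S_SAV`) Odd `k`: only the even `j = 2 i` count, this is the sum of `S_SAVE` for `2 k`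
(`φ(2k) = φ(k)`), if `2 k ≤ X`; otherwise the sum is empty and `X²/φ(k) ≤ 2 X k/φ(k)`. -/
def S_SAV : Prop := ∃ C : ℝ, 0 < C ∧ ∀ X k : ℕ, 1 ≤ k → k ≤ X →
  |2 * ∑ j ∈ Icc 1 (X / k), sg (j * k) * ((X : ℝ) - j * k) - (X : ℝ) ^ 2 / Nat.totient k| ≤
    C * X * ((k : ℝ) / Nat.totient k) * (1 + Real.log (X / k))

/-- (DET; `S_GEX → S_PNTL → S_LAM2 → S_NCO → S_TOT → S_SAV → S_DET`, helper15) The deterministic core. -/
def S_DET : Prop := ∀ A : ℕ, ∃ (C : ℝ) (N0 : ℕ), 0 < C ∧ ∀ N k X : ℕ, N0 ≤ N → 1 ≤ k →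
  (N : ℝ) ≤ k * Real.log N ^ A → k ≤ X → X ≤ N → (∀ j : ℕ, 1 ≤ j → j * k ≤ N → HLp (2 * A + 2) N (j * k)) →
  |G X k - X * Real.log k| ≤ C * X * Real.log (Real.log N) ^ 2

end Pool.Agent.P8H15.FG
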