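import Pool.Agent.P8H15.FG.Det2
import Pool.Agent.P8H5.FG.Pntl
import Pool.Agent.P8H5.FG.Bvl
import Pool.Agent.P8H44.FG.Gex
import Pool.Agent.P8H21.FG.Nco
import Pool.Agent.P8H52.FG.Eul
import Pool.Agent.P8H52.FG.Stir
import Pool.Agent.P8H52.FG.Usq2
import Pool.Agent.P8H69.FG.Save
import Pool.Agent.P8H57.FG.Sav
import Pool.Agent.P8H75.FG.Lam3
import Pool.Agent.P8H45.FG.Harm
import Pool.Agent.P8H71.FG.Babs
import Pool.Agent.P8H54.FG.Binv
import Pool.Agent.P8H93.FG.Bv01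
import Pool.Agent.P8H88.FG.Udf
import Pool.Agent.P8H17.FG.Sax
import Pool.Agent.P8H61.FG.Saw
import Pool.Agent.P8H86.FG.Hsu

set_option autoImplicit false

/-! Project FG: the packages for one scale together. -/

namespace Pool.Agent.P8H15.FG

open Finset

/-- the two formulas at one scale -/
theorem det_all : S_DET2 := by
  have hHSU := Pool.Agent.P8H86.FG.hsu
  have hTOT := Pool.Agent.P8H86.FG.tot
  have hexp := Pool.Agent.P8H52.FG.exp
  have heul := Pool.Agent.P8H52.FG.eul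
  have hsave := Pool.Agent.P8H69.FG.save hHSU hexp heul
  have hsav := Pool.Agent.P8H57.FG.sav hsave
  have hpnt := Pool.Agent.P8H5.FG.pntl
  have hlam := Pool.Agent.P8H75.FG.lam3 hpnt
  have hharm := Pool.Agent.P8H45.FG.harm
  have hstir := Pool.Agent.P8H52.FG.stir
  have husq := Pool.Agent.P8H52.FG.usq hharm hstir
  have huuu := Pool.Agent.P8H88.FG.uuu husq Pool.Agent.P8H88.FG.udf
  have hbabs := Pool.Agent.P8H71.FG.babs
  have hbv := Pool.Agent.P8H93.FG.bv01 hbabs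
  have hbvl := Pool.Agent.P8H5.FG.bvl hbabs hbv
  have hsaw := Pool.Agent.P8H61.FG.saw hexp Pool.Agent.P8H54.FG.binv huuu hbabs hbv hbvl
  have hsax := Pool.Agent.P8H17.FG.sax hsaw
  exact det2 (core Pool.Agent.P8H44.FG.gex hpnt hlam Pool.Agent.P8H21.FG.nco hTOT) hTOT hsav hsax

end Pool.Agent.P8H15.FG
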