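import Pool.Agent.P8H15.FG.Stm2

set_option autoImplicit false

/-! Project FG: the deterministic core. -/

namespace Pool.Agent.P8H15.FG

open Finset ArithmeticFunction

/-- the pair formulas for the differences `j k`, up to `X` -/
def PairX (E N X k : ℕ) : Prop := ∀ j : ℕ, 1 ≤ j → j * k ≤ X →
  |∑ n ∈ Icc 1 (X - j * k), vonMangoldt n * vonMangoldt (n + j * k) - sg (j * k) * ((X : ℝ) - j * k)| ≤
    N / Real.log N ^ E

/-- The core: reduction to the sums of the singular series. -/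
def S_CORE : Prop := ∀ A : ℕ, ∃ (C : ℝ) (N0 : ℕ), 0 < C ∧ 16 ≤ N0 ∧ ∀ N k X : ℕ, N0 ≤ N → 1 ≤ k →
  (N : ℝ) ≤ k * Real.log N ^ A → k ≤ X → X ≤ N → PairX (3 * A) N X k →
  |G X k - (X * Real.log X - X + 2 * ∑ j ∈ Icc 1 (X / k), sg (j * k) * ((X : ℝ) - j * k)
    - (X : ℝ) ^ 2 / Nat.totient k)| ≤ C * (X / Real.log N ^ A)

lemma lam_le {n X : ℕ} (h1 : 1 ≤ n) (h : n ≤ X) : vonMangoldt n ≤ Real.log X :=
  (vonMangoldt_le_log (n := n)).trans (Real.log_le_log (by exact_mod_cast h1) (by exact_mod_cast h))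

lemma nco_sq (hN : S_NCO) {X k : ℕ} (hk : 1 ≤ k) (hkX : k ≤ X) :
    ∑ n ∈ (Icc 1 X).filter (fun n => ¬ n.Coprime k), vonMangoldt n ^ 2 ≤ 2 * Real.log X ^ 3 := by
  have hX : 1 ≤ X := hk.trans hkX
  have hl : 0 ≤ Real.log X := Real.log_natCast_nonneg X
  calc ∑ n ∈ (Icc 1 X).filter (fun n => ¬ n.Coprime k), vonMangoldt n ^ 2
      ≤ ∑ n ∈ (Icc 1 X).filter (fun n => ¬ n.Coprime k), Real.log X * vonMangoldt n := by
        apply sum_le_sum
        intro n hn
        rw [mem_filter, mem_Icc] at hn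
        rw [sq]
        exact mul_le_mul_of_nonneg_right (lam_le hn.1.1 hn.1.2) vonMangoldt_nonneg
    _ = Real.log X * ∑ n ∈ (Icc 1 X).filter (fun n => ¬ n.Coprime k), vonMangoldt n := by rw [mul_sum]
    _ ≤ Real.log X * (2 * Real.log X ^ 2) := mul_le_mul_of_nonneg_left (hN X k hk hkX) hl
    _ = _ := by ring

lemma nco_pair (hN : S_NCO) {X k j : ℕ} (hk : 1 ≤ k) (hkX : k ≤ X) (hj : j * k ≤ X) :
    ∑ n ∈ (Icc 1 (X - j * k)).filter (fun n => ¬ n.Coprime k), vonMangoldt n * vonMangoldt (n + j * k) ≤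
      2 * Real.log X ^ 3 := by
  have hl : 0 ≤ Real.log X := Real.log_natCast_nonneg X
  calc ∑ n ∈ (Icc 1 (X - j * k)).filter (fun n => ¬ n.Coprime k), vonMangoldt n * vonMangoldt (n + j * k)
      ≤ ∑ n ∈ (Icc 1 (X - j * k)).filter (fun n => ¬ n.Coprime k), Real.log X * vonMangoldt n := by
        apply sum_le_sum
        intro n hn
        rw [mem_filter, mem_Icc] at hn
        rw [mul_comm]
        exact mul_le_mul_of_nonneg_right (lam_le (by omega) (by omega)) vonMangoldt_nonneg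
    _ ≤ ∑ n ∈ (Icc 1 X).filter (fun n => ¬ n.Coprime k), Real.log X * vonMangoldt n := by
        apply sum_le_sum_of_subset_of_nonneg
        · apply filter_subset_filter
          exact Icc_subset_Icc_right (by omega)
        · intro _ _ _
          exact mul_nonneg hl vonMangoldt_nonneg
    _ = Real.log X * ∑ n ∈ (Icc 1 X).filter (fun n => ¬ n.Coprime k), vonMangoldt n := by rw [mul_sum]
    _ ≤ Real.log X * (2 * Real.log X ^ 2) := mul_le_mul_of_nonneg_left (hN X k hk hkX) hl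
    _ = _ := by ring

theorem core (hG : S_GEX) (hP : S_PNTL) (hL : S_LAM3) (hN : S_NCO) (hT : S_TOT) : S_CORE := by
  intro A
  obtain ⟨C1, hC1, h1⟩ := hP (2 * A + 1)
  obtain ⟨C3, hC3, h3⟩ := hL A
  obtain ⟨C2, hC2, h2⟩ := hT
  -- large N
  obtain ⟨N1, hN1⟩ : ∃ N1 : ℕ, ∀ N : ℕ, N1 ≤ N → Real.log N ^ (4 * A + 6) ≤ N := by
    have hlo : (fun x : ℝ => Real.log x ^ (4 * A + 6)) =o[Filter.atTop] id := Real.isLittleO_pow_log_id_atTop
    have h5 := (hlo.bound (c := 1) one_pos)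
    obtain ⟨x0, hx0⟩ := Filter.eventually_atTop.1 h5
    refine ⟨⌈max x0 1⌉₊, fun N hN => ?_⟩
    have h6 : max x0 1 ≤ (N : ℝ) := (Nat.le_ceil _).trans (by exact_mod_cast hN)
    have h7 := hx0 N ((le_max_left _ _).trans h6)
    rw [one_mul, Real.norm_eq_abs, Real.norm_eq_abs, id_eq, Nat.abs_cast] at h7
    exact (le_abs_self _).trans h7
  refine ⟨C3 * 2 ^ A + 2 + 2 * (1 + 2) + 2 * (C2 * (C1 * 2 ^ (2 * A + 1) + 2)), max N1 16, by positivity,
    le_max_right _ _, ?_⟩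
  intro N k X hNN hk hkN hkX hXN hHL
  have hN1' := hN1 N ((le_max_left _ _).trans hNN)
  have hN16 : 16 ≤ N := (le_max_right _ _).trans hNN
  obtain ⟨L, hLdef⟩ : ∃ L : ℝ, L = Real.log N := ⟨_, rfl⟩
  rw [← hLdef] at hN1' hkN ⊢
  have hNpos : (0 : ℝ) < N := by exact_mod_cast (by omega : 0 < N)
  have hkpos : (0 : ℝ) < k := by exact_mod_cast hk
  have hXpos : (0 : ℝ) < X := by exact_mod_cast hk.trans hkX
  have hkX' : (k : ℝ) ≤ X := by exact_mod_cast hkX
  have hXN' : (X : ℝ) ≤ N := by exact_mod_cast hXN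
  have hL2 : 1 ≤ L := by
    rw [hLdef, Real.le_log_iff_exp_le hNpos]
    have : Real.exp 1 < 2.7182818286 := Real.exp_one_lt_d9
    have h16 : (16 : ℝ) ≤ N := by exact_mod_cast hN16
    linarith
  have hL0 : 0 < L := by linarith
  have hLA : 0 < L ^ A := by positivity
  have hNX : (N : ℝ) ≤ X * L ^ A := hkN.trans (mul_le_mul_of_nonneg_right hkX' hLA.le)
  -- W = X / L^A
  obtain ⟨W, hW⟩ : ∃ W : ℝ, W = X / L ^ A := ⟨_, rfl⟩
  have hXW : (X : ℝ) = W * L ^ A := by rw [hW]; field_simp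
  have hWpos : 0 < W := by rw [hW]; positivity
  rw [← hW]
  -- L^(A+3) ≤ W
  have hW2 : L ^ (A + 3) ≤ W := by
    have h5 : L ^ (4 * A + 6) ≤ W * L ^ A * L ^ A := by rw [← hXW]; exact hN1'.trans hNX
    have h6 : L ^ (A + 3) * (L ^ A * L ^ A) ≤ L ^ (4 * A + 6) := by
      rw [← pow_add, ← pow_add]
      exact pow_le_pow_right₀ hL2 (by omega)
    have h7 : L ^ (A + 3) * (L ^ A * L ^ A) ≤ W * (L ^ A * L ^ A) := by
      calc _ ≤ _ := h6
        _ ≤ _ := h5
        _ = _ := by ring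
    exact le_of_mul_le_mul_right h7 (by positivity)
  have hW1 : 1 ≤ W := le_trans (one_le_pow₀ hL2) hW2
  have hX2 : 2 ≤ X := by
    have h5 : (1 : ℝ) < X ∨ (X : ℝ) ≤ 1 := lt_or_ge _ _
    rcases h5 with h5 | h5
    · exact_mod_cast h5
    · exfalso
      have h6 : (16 : ℝ) ≤ N := by exact_mod_cast hN16
      have h7 : L ^ (4 * A + 6) ≤ L ^ A := by
        calc _ ≤ (N : ℝ) := hN1'
          _ ≤ X * L ^ A := hNX
          _ ≤ 1 * L ^ A := mul_le_mul_of_nonneg_right h5 hLA.le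
          _ = _ := one_mul _
      have h8 : (2 : ℝ) ≤ L := by
        rw [hLdef, Real.le_log_iff_exp_le hNpos]
        have h9 : Real.exp 1 < 2.7182818286 := Real.exp_one_lt_d9
        have h10 : Real.exp 2 = Real.exp 1 * Real.exp 1 := by rw [← Real.exp_add]; norm_num
        rw [h10]
        nlinarith [Real.exp_pos 1]
      have h11 : L ^ A < L ^ (4 * A + 6) := pow_lt_pow_right₀ (by linarith) (by omega)
      linarith
  -- log X
  obtain ⟨l, hl⟩ : ∃ l : ℝ, l = Real.log X := ⟨_, rfl⟩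
  have hlL : l ≤ L := by
    rw [hl, hLdef]
    exact Real.log_le_log hXpos hXN'
  have hl0 : 0 ≤ l := by rw [hl]; exact Real.log_natCast_nonneg X
  have hLl : L ≤ 2 * l := by
    have h5 : (N : ℝ) ≤ (X : ℝ) ^ 2 := by
      have h6 : (N : ℝ) ^ 2 ≤ (X : ℝ) ^ 2 * (L ^ A) ^ 2 := by
        rw [← mul_pow]
        exact pow_le_pow_left₀ hNpos.le hNX 2
      have h7 : (L ^ A) ^ 2 ≤ N := by
        refine le_trans ?_ hN1'
        rw [← pow_mul]
        exact pow_le_pow_right₀ hL2 (by omega)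
      have h8 : (N : ℝ) * N ≤ (X : ℝ) ^ 2 * N := by
        calc (N : ℝ) * N = (N : ℝ) ^ 2 := by ring
          _ ≤ _ := h6
          _ ≤ _ := mul_le_mul_of_nonneg_left h7 (by positivity)
      exact le_of_mul_le_mul_right h8 hNpos
    rw [hLdef, hl]
    have h6 := Real.log_le_log hNpos h5
    rw [Real.log_pow] at h6
    exact_mod_cast h6
  have hlpos : 0 < l := by linarith
  have hpowl : ∀ m : ℕ, (1 : ℝ) / l ^ m ≤ 2 ^ m / L ^ m := by
    intro m
    rw [div_le_div_iff₀ (by positivity) (by positivity), one_mul, ← mul_pow]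
    exact pow_le_pow_left₀ hL0.le hLl m
  -- the parts
  have hφ : (0 : ℝ) < Nat.totient k := by exact_mod_cast Nat.totient_pos.2 hk
  have e0 := hG X k hk
  -- part (i), (ii)
  have p1 : |∑ n ∈ (Icc 1 X).filter (fun n => n.Coprime k), vonMangoldt n ^ 2 - (X * l - X)| ≤
      (C3 * 2 ^ A + 2) * W := by
    have q1 := sum_filter_add_sum_filter_not (Icc 1 X) (fun n => n.Coprime k) (fun n => vonMangoldt n ^ 2)
    have q2 := h3 X hX2
    rw [← hl] at q2
    have q3 := nco_sq hN hk hkX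
    rw [← hl] at q3
    have q3' : 0 ≤ ∑ n ∈ (Icc 1 X).filter (fun n => ¬ n.Coprime k), vonMangoldt n ^ 2 :=
      sum_nonneg fun _ _ => sq_nonneg _
    have q4 : C3 * X / l ^ A ≤ C3 * 2 ^ A * W := by
      calc C3 * X / l ^ A = C3 * X * (1 / l ^ A) := by ring
        _ ≤ C3 * X * (2 ^ A / L ^ A) := mul_le_mul_of_nonneg_left (hpowl A) (by positivity)
        _ = C3 * 2 ^ A * W := by rw [hW]; ring
    have q5 : 2 * l ^ 3 ≤ 2 * W := by
      have : l ^ 3 ≤ L ^ (A + 3) := (pow_le_pow_left₀ hl0 hlL 3).trans (pow_le_pow_right₀ hL2 (by omega))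
      linarith
    rw [abs_le] at q2 ⊢
    constructor <;> nlinarith [q2.1, q2.2]
  -- part (iii)
  have p2 : |∑ j ∈ Icc 1 (X / k), ∑ n ∈ (Icc 1 (X - j * k)).filter (fun n => n.Coprime k),
        vonMangoldt n * vonMangoldt (n + j * k) - ∑ j ∈ Icc 1 (X / k), sg (j * k) * ((X : ℝ) - j * k)| ≤
      (1 + 2) * W := by
    have q1 : ∀ j ∈ Icc 1 (X / k), |∑ n ∈ (Icc 1 (X - j * k)).filter (fun n => n.Coprime k),
        vonMangoldt n * vonMangoldt (n + j * k) - sg (j * k) * ((X : ℝ) - j * k)| ≤ N / L ^ (3 * A) + 2 * L ^ 3 := by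
      intro j hj
      rw [mem_Icc] at hj
      have hjX : j * k ≤ X := (Nat.mul_le_mul_right k hj.2).trans (Nat.div_mul_le_self X k)
      have r1 := hHL j hj.1 hjX
      rw [← hLdef] at r1
      have r2 := sum_filter_add_sum_filter_not (Icc 1 (X - j * k)) (fun n => n.Coprime k)
        (fun n => vonMangoldt n * vonMangoldt (n + j * k))
      have r3 := nco_pair hN hk hkX hjX
      rw [← hl] at r3
      have r3' : 0 ≤ ∑ n ∈ (Icc 1 (X - j * k)).filter (fun n => ¬ n.Coprime k),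
          vonMangoldt n * vonMangoldt (n + j * k) :=
        sum_nonneg fun _ _ => mul_nonneg vonMangoldt_nonneg vonMangoldt_nonneg
      have r5 : l ^ 3 ≤ L ^ 3 := pow_le_pow_left₀ hl0 hlL 3
      rw [abs_le] at r1 ⊢
      constructor <;> linarith [r1.1, r1.2]
    have q2 : (((Icc 1 (X / k)).card : ℕ) : ℝ) ≤ L ^ A := by
      rw [Nat.card_Icc, Nat.add_sub_cancel]
      calc ((X / k : ℕ) : ℝ) ≤ (X : ℝ) / k := Nat.cast_div_le
        _ ≤ N / k := div_le_div_of_nonneg_right hXN' hkpos.le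
        _ ≤ L ^ A := by rw [div_le_iff₀ hkpos]; linarith
    rw [← sum_sub_distrib]
    calc |∑ j ∈ Icc 1 (X / k), (∑ n ∈ (Icc 1 (X - j * k)).filter (fun n => n.Coprime k),
        vonMangoldt n * vonMangoldt (n + j * k) - sg (j * k) * ((X : ℝ) - j * k))|
        ≤ ∑ j ∈ Icc 1 (X / k), |∑ n ∈ (Icc 1 (X - j * k)).filter (fun n => n.Coprime k),
        vonMangoldt n * vonMangoldt (n + j * k) - sg (j * k) * ((X : ℝ) - j * k)| := abs_sum_le_sum_abs _ _
      _ ≤ ∑ _j ∈ Icc 1 (X / k), (N / L ^ (3 * A) + 2 * L ^ 3) := sum_le_sum q1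
      _ = ((Icc 1 (X / k)).card : ℕ) * (N / L ^ (3 * A) + 2 * L ^ 3) := by rw [sum_const, nsmul_eq_mul]
      _ ≤ L ^ A * (N / L ^ (3 * A) + 2 * L ^ 3) := mul_le_mul_of_nonneg_right q2 (by positivity)
      _ ≤ (1 + 2) * W := by
        have r1 : L ^ A * (N / L ^ (3 * A)) ≤ W := by
          have : L ^ A * (N / L ^ (3 * A)) ≤ L ^ A * (X * L ^ A / L ^ (3 * A)) :=
            mul_le_mul_of_nonneg_left (div_le_div_of_nonneg_right hNX (by positivity)) hLA.le
          refine this.trans (le_of_eq ?_)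
          rw [hW]
          field_simp
          ring
        have r2 : L ^ A * (2 * L ^ 3) ≤ 2 * W := by
          have : L ^ A * (2 * L ^ 3) = 2 * L ^ (A + 3) := by ring
          linarith
        rw [mul_add]
        linarith
  -- part (iv)
  have p3 : (X : ℝ) / Nat.totient k * |∑ n ∈ (Icc 1 X).filter (fun n => n.Coprime k), vonMangoldt n - X| ≤
      C2 * (C1 * 2 ^ (2 * A + 1) + 2) * W := by
    have q1 := sum_filter_add_sum_filter_not (Icc 1 X) (fun n => n.Coprime k) (fun n => vonMangoldt n)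
    have q2 := h1 X hX2
    rw [← hl] at q2
    have q3 := hN X k hk hkX
    rw [← hl] at q3
    have q3' : 0 ≤ ∑ n ∈ (Icc 1 X).filter (fun n => ¬ n.Coprime k), vonMangoldt n :=
      sum_nonneg fun _ _ => vonMangoldt_nonneg
    have q4 : C1 * X / l ^ (2 * A + 1) ≤ C1 * 2 ^ (2 * A + 1) * X / L ^ (2 * A + 1) := by
      calc C1 * X / l ^ (2 * A + 1) = C1 * X * (1 / l ^ (2 * A + 1)) := by ring
        _ ≤ C1 * X * (2 ^ (2 * A + 1) / L ^ (2 * A + 1)) := mul_le_mul_of_nonneg_left (hpowl _) (by positivity)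
        _ = _ := by ring
    have q5 : |∑ n ∈ (Icc 1 X).filter (fun n => n.Coprime k), vonMangoldt n - X| ≤
        C1 * 2 ^ (2 * A + 1) * X / L ^ (2 * A + 1) + 2 * L ^ 2 := by
      have r5 : l ^ 2 ≤ L ^ 2 := pow_le_pow_left₀ hl0 hlL 2
      rw [abs_le] at q2 ⊢
      constructor <;> linarith [q2.1, q2.2]
    have q6 : (X : ℝ) / Nat.totient k ≤ C2 * L ^ (A + 1) := by
      have r1 := h2 k N hN16 hk (hkX.trans hXN)
      rw [← hLdef] at r1
      have r2 : Real.log L ≤ L := (Real.log_le_sub_one_of_pos hL0).trans (by linarith)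
      have r3 : (k : ℝ) / Nat.totient k ≤ C2 * L := r1.trans (mul_le_mul_of_nonneg_left r2 hC2.le)
      have r4 : (X : ℝ) / k ≤ L ^ A := by
        rw [div_le_iff₀ hkpos]; linarith
      calc (X : ℝ) / Nat.totient k = (X : ℝ) / k * ((k : ℝ) / Nat.totient k) := by field_simp
        _ ≤ L ^ A * (C2 * L) := mul_le_mul r4 r3 (by positivity) hLA.le
        _ = _ := by ring
    calc (X : ℝ) / Nat.totient k * |∑ n ∈ (Icc 1 X).filter (fun n => n.Coprime k), vonMangoldt n - X|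
        ≤ (C2 * L ^ (A + 1)) * (C1 * 2 ^ (2 * A + 1) * X / L ^ (2 * A + 1) + 2 * L ^ 2) :=
          mul_le_mul q6 q5 (abs_nonneg _) (by positivity)
      _ = C2 * (C1 * 2 ^ (2 * A + 1) * (L ^ (A + 1) * X / L ^ (2 * A + 1)) + 2 * L ^ (A + 3)) := by ring
      _ ≤ C2 * (C1 * 2 ^ (2 * A + 1) * W + 2 * W) := by
        apply mul_le_mul_of_nonneg_left _ hC2.le
        have r1 : L ^ (A + 1) * X / L ^ (2 * A + 1) = W := by
          rw [hW, div_eq_div_iff (by positivity) (by positivity)]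
          ring
        rw [r1]
        linarith
      _ = _ := by ring
  -- conclusion
  rw [e0, ← hl]
  have e1 : (∑ n ∈ (Icc 1 X).filter (fun n => n.Coprime k), vonMangoldt n ^ 2
    + 2 * ∑ j ∈ Icc 1 (X / k), ∑ n ∈ (Icc 1 (X - j * k)).filter (fun n => n.Coprime k),
        vonMangoldt n * vonMangoldt (n + j * k)
    - 2 * (X / Nat.totient k) * ∑ n ∈ (Icc 1 X).filter (fun n => n.Coprime k), vonMangoldt n
    + (X : ℝ) ^ 2 / Nat.totient k) - (X * l - X + 2 * ∑ j ∈ Icc 1 (X / k), sg (j * k) * ((X : ℝ) - j * k)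
    - (X : ℝ) ^ 2 / Nat.totient k) =
    (∑ n ∈ (Icc 1 X).filter (fun n => n.Coprime k), vonMangoldt n ^ 2 - (X * l - X))
    + 2 * (∑ j ∈ Icc 1 (X / k), ∑ n ∈ (Icc 1 (X - j * k)).filter (fun n => n.Coprime k),
        vonMangoldt n * vonMangoldt (n + j * k) - ∑ j ∈ Icc 1 (X / k), sg (j * k) * ((X : ℝ) - j * k))
    - 2 * (X / Nat.totient k * (∑ n ∈ (Icc 1 X).filter (fun n => n.Coprime k), vonMangoldt n - X)) := by
    ring
  rw [e1]
  have p4 : |(X : ℝ) / Nat.totient k * (∑ n ∈ (Icc 1 X).filter (fun n => n.Coprime k), vonMangoldt n - X)| ≤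
      C2 * (C1 * 2 ^ (2 * A + 1) + 2) * W := by
    rw [abs_mul, abs_of_nonneg (by positivity : (0 : ℝ) ≤ (X : ℝ) / Nat.totient k)]
    exact p3
  rw [abs_le] at p1 p2 p4 ⊢
  constructor <;> nlinarith [p1.1, p1.2, p2.1, p2.2, p4.1, p4.2]

end Pool.Agent.P8H15.FG
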