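import Pool.Agent.P8H15.FG.Det

set_option autoImplicit false

/-! Project FG: the two formulas at one scale. -/

namespace Pool.Agent.P8H15.FG

open Finset ArithmeticFunction

/-- The two formulas at one scale. -/
def S_DET2 : Prop := ∀ A : ℕ, ∃ (C : ℝ) (N0 : ℕ), 0 < C ∧ 16 ≤ N0 ∧ ∀ N k X : ℕ, N0 ≤ N → 1 ≤ k →
  (N : ℝ) ≤ k * Real.log N ^ A → k ≤ X → X ≤ N → PairX (3 * A) N X k →
  |G X k - (X * Real.log k - CQ k * X)| ≤ C * X * RR k * ((k : ℝ) / X) ^ (1 / 4 : ℝ) ∧
  |G X k - X * Real.log k| ≤ C * X * Real.log (Real.log N) ^ 2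

lemma one_le_RR (k : ℕ) : 1 ≤ RR k := by
  unfold RR
  refine Finset.prod_induction _ (fun x : ℝ => 1 ≤ x) (fun a b ha hb => by nlinarith) le_rfl (fun p _ => ?_)
  have : 0 ≤ 1 / Real.sqrt p := by positivity
  nlinarith

lemma loglog_ge {N : ℕ} (hN : 16 ≤ N) : 1 ≤ Real.log (Real.log N) := by
  have hNpos : (0 : ℝ) < N := by exact_mod_cast (by omega : 0 < N)
  have h16 : (16 : ℝ) ≤ N := by exact_mod_cast hN
  have h1 : Real.exp 1 ≤ Real.log N := by
    have h2 : Real.log 16 ≤ Real.log N := Real.log_le_log (by norm_num) h16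
    have h3 : Real.log 16 = 4 * Real.log 2 := by
      rw [show (16 : ℝ) = 2 ^ 4 by norm_num, Real.log_pow]; norm_num
    have h4 := Real.log_two_gt_d9
    have h5 := Real.exp_one_lt_d9
    linarith
  rw [Real.le_log_iff_exp_le (lt_of_lt_of_le (Real.exp_pos 1) h1)]
  exact h1

theorem det2 (hc : S_CORE) (hT : S_TOT) (hS : S_SAV) (hX : S_SAX) : S_DET2 := by
  intro A
  obtain ⟨C1, N0, hC1, hN0, h1⟩ := hc A
  obtain ⟨C2, hC2, h2⟩ := hT
  obtain ⟨C3, hC3, h3⟩ := hS
  obtain ⟨C4, hC4, h4⟩ := hX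
  refine ⟨(C1 + C4) + (C1 + C3 * (C2 * (1 + A)) + (1 + A)), N0, by positivity, hN0, ?_⟩
  intro N k X hNN hk hkN hkX hXN hHL
  have e0 := h1 N k X hNN hk hkN hkX hXN hHL
  have hN16 : 16 ≤ N := hN0.trans hNN
  have hll := loglog_ge hN16
  obtain ⟨L, hLdef⟩ : ∃ L : ℝ, L = Real.log N := ⟨_, rfl⟩
  rw [← hLdef] at hkN hll e0 ⊢
  have hNpos : (0 : ℝ) < N := by exact_mod_cast (by omega : 0 < N)
  have hkpos : (0 : ℝ) < k := by exact_mod_cast hk
  have hXpos : (0 : ℝ) < X := by exact_mod_cast hk.trans hkX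
  have hkX' : (k : ℝ) ≤ X := by exact_mod_cast hkX
  have hXN' : (X : ℝ) ≤ N := by exact_mod_cast hXN
  have hL2 : 1 ≤ L := by
    by_contra hcon
    push Not at hcon
    have h5 : Real.log L ≤ 0 := by
      apply Real.log_nonpos _ hcon.le
      rw [hLdef]; exact Real.log_natCast_nonneg N
    linarith
  have hL0 : 0 < L := by linarith
  have hLA : 0 < L ^ A := by positivity
  have hφ : (0 : ℝ) < Nat.totient k := by exact_mod_cast Nat.totient_pos.2 hk
  obtain ⟨W, hW⟩ : ∃ W : ℝ, W = X / L ^ A := ⟨_, rfl⟩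
  rw [← hW] at e0
  have hWX : W ≤ X := by rw [hW]; exact div_le_self hXpos.le (one_le_pow₀ hL2)
  have hWk : W ≤ k := by
    rw [hW, div_le_iff₀ hLA]
    linarith
  have hlog : Real.log ((X : ℝ) / k) = Real.log X - Real.log k := Real.log_div hXpos.ne' hkpos.ne'
  obtain ⟨Ss, hSs⟩ : ∃ S : ℝ, S = 2 * ∑ j ∈ Icc 1 (X / k), sg (j * k) * ((X : ℝ) - j * k) := ⟨_, rfl⟩
  rw [← hSs] at e0
  constructor
  · have e1 := h4 X k hk (hk.trans hkX)
    rw [← hSs, hlog] at e1
    obtain ⟨t, ht⟩ : ∃ t : ℝ, t = ((k : ℝ) / X) ^ (1 / 4 : ℝ) := ⟨_, rfl⟩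
    rw [← ht] at e1 ⊢
    have hkt : (k : ℝ) / X ≤ t := by
      rw [ht]
      have h5 : (k : ℝ) / X ≤ 1 := (div_le_one hXpos).2 hkX'
      calc (k : ℝ) / X = ((k : ℝ) / X) ^ (1 : ℝ) := (Real.rpow_one _).symm
        _ ≤ ((k : ℝ) / X) ^ (1 / 4 : ℝ) :=
          Real.rpow_le_rpow_of_exponent_ge (by positivity) h5 (by norm_num)
    have ht0 : 0 ≤ t := le_trans (by positivity) hkt
    have hWt : W ≤ X * RR k * t := by
      have h6 : (k : ℝ) ≤ X * t := by
        have := mul_le_mul_of_nonneg_left hkt hXpos.le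
        rwa [mul_div_cancel₀ _ hXpos.ne'] at this
      have h7 : X * t ≤ X * RR k * t := by
        have h8 : X * 1 * t ≤ X * RR k * t :=
          mul_le_mul_of_nonneg_right (mul_le_mul_of_nonneg_left (one_le_RR k) hXpos.le) ht0
        simpa using h8
      linarith
    have hR : 0 ≤ X * RR k * t := by
      have := one_le_RR k
      positivity
    have e2 : |G X k - (X * Real.log k - CQ k * X)| ≤ C1 * W + C4 * X * RR k * t := by
      rw [abs_le] at e0 e1 ⊢
      constructor <;> nlinarith [e0.1, e0.2, e1.1, e1.2]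
    refine e2.trans ?_
    have h5 : C1 * W ≤ C1 * (X * RR k * t) := mul_le_mul_of_nonneg_left hWt hC1.le
    have h6 : 0 ≤ (C1 + C3 * (C2 * (1 + A)) + (1 + A)) * (X * RR k * t) := by positivity
    nlinarith
  · have e1 := h3 X k hk hkX
    rw [← hSs] at e1
    obtain ⟨u, hu⟩ : ∃ u : ℝ, u = Real.log L := ⟨_, rfl⟩
    rw [← hu] at hll ⊢
    have e2 := h2 k N hN16 hk (hkX.trans hXN)
    rw [← hLdef, ← hu] at e2
    have h5 : Real.log ((X : ℝ) / k) ≤ A * u := by
      have h6 : (X : ℝ) / k ≤ L ^ A := by rw [div_le_iff₀ hkpos]; linarith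
      have h7 := Real.log_le_log (by positivity) h6
      rwa [Real.log_pow, ← hu] at h7
    have h5' : 0 ≤ Real.log ((X : ℝ) / k) := Real.log_nonneg (by rw [le_div_iff₀ hkpos]; linarith)
    have h6 : 1 + Real.log ((X : ℝ) / k) ≤ (1 + A) * u := by nlinarith
    have h7 : C3 * X * ((k : ℝ) / Nat.totient k) * (1 + Real.log (X / k)) ≤ C3 * (C2 * (1 + A)) * X * u ^ 2 := by
      calc C3 * X * ((k : ℝ) / Nat.totient k) * (1 + Real.log (X / k))
          ≤ C3 * X * (C2 * u) * ((1 + A) * u) := by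
            apply mul_le_mul _ h6 (by linarith) (by positivity)
            exact mul_le_mul_of_nonneg_left e2 (by positivity)
        _ = _ := by ring
    have hu2 : u ≤ u ^ 2 := by nlinarith
    have h8 : |X * Real.log X - X - X * Real.log k| ≤ (1 + A) * X * u ^ 2 := by
      have h9 : X * Real.log X - X - X * Real.log k = X * (Real.log ((X : ℝ) / k) - 1) := by rw [hlog]; ring
      rw [h9, abs_mul, abs_of_pos hXpos]
      have h10 : |Real.log ((X : ℝ) / k) - 1| ≤ (1 + A) * u ^ 2 := by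
        have h11 : (1 + (A : ℝ)) * u ≤ (1 + A) * u ^ 2 := mul_le_mul_of_nonneg_left hu2 (by positivity)
        rw [abs_le]
        constructor <;> nlinarith
      calc (X : ℝ) * |Real.log ((X : ℝ) / k) - 1| ≤ X * ((1 + A) * u ^ 2) := mul_le_mul_of_nonneg_left h10 hXpos.le
        _ = _ := by ring
    have h9 : C1 * W ≤ C1 * (X * u ^ 2) := by
      apply mul_le_mul_of_nonneg_left _ hC1.le
      have : (X : ℝ) * 1 ≤ X * u ^ 2 := mul_le_mul_of_nonneg_left (by nlinarith) hXpos.le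
      linarith
    have e3 : |G X k - X * Real.log k| ≤ C1 * W + C3 * X * ((k : ℝ) / Nat.totient k) * (1 + Real.log (X / k)) +
        (1 + A) * X * u ^ 2 := by
      rw [abs_le] at e0 e1 h8 ⊢
      constructor <;> linarith [e0.1, e0.2, e1.1, e1.2, h8.1, h8.2]
    refine e3.trans ?_
    have h10 : 0 ≤ (C1 + C4) * (X * u ^ 2) := by positivity
    nlinarith

end Pool.Agent.P8H15.FG
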